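import Pool.Agent.X155.TreeLampQ

/-! MP_506dae_al, Q1 (a), (b), (c): there is an extension of a group with bounded retreat depth
and connected spheres by a group, which is one-ended, has unbounded retreat depth and does not
have connected spheres. -/

namespace Pool.Agent.Results.MP_506dae_al.TreeLampExtension

variable {G : Type} [Group G]

/-- The Cayley graph of `G` with respect to `S`: distinct `g, h` are adjacent if
`g⁻¹ h ∈ S` or `h⁻¹ g ∈ S`. -/
def cayley (S : Set G) : SimpleGraph G where
  Adj g h := g ≠ h ∧ (g⁻¹ * h ∈ S ∨ h⁻¹ * g ∈ S)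
  symm := ⟨fun _ _ h => ⟨h.1.symm, h.2.symm⟩⟩
  loopless := ⟨fun _ h => h.1 rfl⟩

/-- The ball `B(m)` around the identity (empty for `m < 0`). -/
def ball (S : Set G) (m : ℤ) : Set G := {g | ((cayley S).dist 1 g : ℤ) ≤ m}

/-- `G` is infinite and the complement of every finite vertex set has exactly one infinite
connected component. -/
def IsOneEnded (S : Set G) : Prop :=
  Infinite G ∧ ∀ F : Set G, F.Finite →
    ∃! C : ((cayley S).induce Fᶜ).ConnectedComponent, C.supp.Infinite

/-- The elements outside `B(m)` whose component in the complement of `B(m)` is infinite. -/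
def outer (S : Set G) (m : ℤ) : Set G :=
  {g | ∃ hg : g ∈ (ball S m)ᶜ,
    (((cayley S).induce (ball S m)ᶜ).connectedComponentMk ⟨g, hg⟩).supp.Infinite}

/-- The retreat depth of `g`: the least `d` such that `g` lies in an infinite connected component
of the complement of `B(|g| - d - 1)`. -/
noncomputable def retreatDepth (S : Set G) (g : G) : ℕ∞ :=
  ⨅ (d : ℕ) (_ : g ∈ outer S (((cayley S).dist 1 g : ℤ) - d - 1)), (d : ℕ∞)

/-- `sup_g rd(g) < ∞`. -/
def BoundedRetreatDepth (S : Set G) : Prop := ∃ D : ℕ, ∀ g, retreatDepth S g ≤ D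

/-- `S(n,r)^∞ = B(n+r) ∩ B(n-1)^{c,∞}`. -/
def annulus (S : Set G) (n r : ℕ) : Set G := ball S ((n : ℤ) + r) ∩ outer S ((n : ℤ) - 1)

/-- The connection thickness: the least `r` such that the graph induced on `S(n,r)^∞` is
connected (`⊤` if there is none). -/
noncomputable def thickness (S : Set G) (n : ℕ) : ℕ∞ :=
  ⨅ (r : ℕ) (_ : ((cayley S).induce (annulus S n r)).Connected), (r : ℕ∞)

/-- `(G,S)` has connected spheres: it is one-ended and the connection thickness is bounded. -/
def ConnectedSpheres (S : Set G) : Prop := IsOneEnded S ∧ ∃ R : ℕ, ∀ n, thickness S n ≤ R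

/-- There are a group `G`, a finite generating set `S` of `G` and a short exact sequence
`1 → K → G → Q → 1` with `(Q, π(S))` of bounded retreat depth and with connected spheres, such
that `G` is one-ended, `(G,S)` has unbounded retreat depth and does not have connected spheres.
(Here `Q` is isomorphic to `ℤ²` and `π(S)` consists of `0`, `(1,0)` and `(0,1)`.) -/
theorem result : ∃ (K G Q : Type) (_ : Group K) (_ : Group G) (_ : Group Q)
    (ι : K →* G) (π : G →* Q) (S : Set G),
    Function.Injective ι ∧ ι.range = π.ker ∧ Function.Surjective π ∧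
    S.Finite ∧ Subgroup.closure S = ⊤ ∧
    BoundedRetreatDepth (π '' S) ∧ ConnectedSpheres (π '' S) ∧
    IsOneEnded S ∧ ¬ BoundedRetreatDepth S ∧ ¬ ConnectedSpheres S := by
  refine ⟨(Pool.Agent.X155.TreeLamp.proj).ker, Pool.Agent.X155.TreeLamp.G,
    Pool.Agent.X155.TreeLamp.Plane.Q, inferInstance, inferInstance, inferInstance,
    (Pool.Agent.X155.TreeLamp.proj).ker.subtype, Pool.Agent.X155.TreeLamp.proj,
    Pool.Agent.X155.TreeLamp.G.S, Subtype.val_injective, Subgroup.range_subtype _,
    Pool.Agent.X155.TreeLamp.proj_surj, Pool.Agent.X155.TreeLamp.G.S_finite,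
    Pool.Agent.X155.TreeLamp.G.closure_S, ?_, ?_, Pool.Agent.X155.TreeLamp.G.oneEnded, ?_, ?_⟩
  · rw [Pool.Agent.X155.TreeLamp.proj_S]
    refine ⟨0, fun q => ?_⟩
    exact iInf₂_le (0 : ℕ) (Pool.Agent.X155.TreeLamp.Plane.rd_zero q)
  · rw [Pool.Agent.X155.TreeLamp.proj_S]
    refine ⟨Pool.Agent.X155.TreeLamp.Plane.oneEnded, 1, fun n => ?_⟩
    exact iInf₂_le (1 : ℕ) (Pool.Agent.X155.TreeLamp.Plane.annulus_conn n)
  · rintro ⟨D, hD⟩
    have h1 := hD ⟨Pool.Agent.X155.TreeLamp.full (D + 1), 1⟩
    have h2 : ((D + 1 : ℕ) : ℕ∞) ≤ retreatDepth Pool.Agent.X155.TreeLamp.G.S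
        (⟨Pool.Agent.X155.TreeLamp.full (D + 1), 1⟩ : Pool.Agent.X155.TreeLamp.G) := by
      refine le_iInf₂ fun d hd => ?_
      by_contra hcon
      rw [not_le] at hcon
      have hlt : d < D + 1 := by exact_mod_cast hcon
      have h3 := Pool.Agent.X155.TreeLamp.G.dist_centre (D := D + 1) (by omega)
      have h4 : ((cayley Pool.Agent.X155.TreeLamp.G.S).dist 1
          (⟨Pool.Agent.X155.TreeLamp.full (D + 1), 1⟩ : Pool.Agent.X155.TreeLamp.G) : ℤ) =
          2 * ((Pool.Agent.X155.TreeLamp.G.N (D + 1) : ℤ) - 1) := h3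
      rw [h4] at hd
      exact Pool.Agent.X155.TreeLamp.G.pocket (D := D + 1) (by omega) (by push_cast; omega) hd
    have h5 := h2.trans h1
    have h6 : D + 1 ≤ D := by exact_mod_cast h5
    omega
  · rintro ⟨-, R, hR⟩
    have h1 := hR (Pool.Agent.X155.TreeLamp.G.n (R + 1))
    have h2 : ((R + 1 : ℕ) : ℕ∞) ≤ thickness Pool.Agent.X155.TreeLamp.G.S
        (Pool.Agent.X155.TreeLamp.G.n (R + 1)) := by
      refine le_iInf₂ fun r hr => ?_
      by_contra hcon
      rw [not_le] at hcon
      have hlt : r < R + 1 := by exact_mod_cast hcon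
      exact Pool.Agent.X155.TreeLamp.G.not_conn (D := R + 1) (by omega) hlt hr
    have h5 := h2.trans h1
    have h6 : R + 1 ≤ R := by exact_mod_cast h5
    omega

end Pool.Agent.Results.MP_506dae_al.TreeLampExtension
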